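import Mathlib
set_option autoImplicit false
namespace Pool.Agent.Results.MP_856f66_gt.Main
open Set Metric Filter Topology UniformSpace
open IsUltrametricDist hiding dist_triangle_max

def Balls (X : Type*) [MetricSpace X] : Set (Set X) := {A | ∃ c r, 0 < r ∧ A = closedBall c r}

def Twin {P : Type*} (d : P → P → ℝ) (a b : P) : Prop :=
  (∀ z ≠ a, d a b ≤ d a z) ∧ ∀ z ≠ b, d a b ≤ d b z

structure Good {P : Type*} (d : P → P → ℝ) (N : Set P) (δ : P → ℝ) : Prop where
  self : ∀ a, d a a = 0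
  nn : ∀ a b, 0 ≤ d a b
  comm : ∀ a b, d a b = d b a
  ultra : ∀ a b c, d a c ≤ max (d a b) (d b c)
  uniq : ∀ a ∈ N, ∀ b ∈ N, Twin d a b → a = b
  ex : ∀ a, (∃ q ≠ a, ∀ z ≠ a, d a q ≤ d a z) → ∃ b ∈ N, Twin d a b
  low : ∀ a ∈ N, ∀ z ≠ a, δ a ≤ d a z
  att : ∀ a ∈ N, ∃ q ≠ a, d a q ≤ δ a
  zero : ∀ a ∉ N, δ a = 0

section
variable {P Q : Type*} {d : P → P → ℝ} {N : Set P} {δ : P → ℝ}

lemma Good.refl (h : Good d N δ) (a : P) : Twin d a a :=
  ⟨fun z _ => (h.self a).trans_le (h.nn _ _), fun z _ => (h.self a).trans_le (h.nn _ _)⟩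

lemma Good.symm (h : Good d N δ) {a b : P} (H : Twin d a b) : Twin d b a :=
  ⟨h.comm a b ▸ H.2, h.comm a b ▸ H.1⟩

lemma Good.eq (h : Good d N δ) {a b z : P} (H : Twin d a b) (ha : z ≠ a) (hb : z ≠ b) :
    d a z = d b z := by
  have h1 := h.ultra a b z
  have h2 := h.ultra b a z
  rw [max_eq_right (H.2 z hb)] at h1
  rw [h.comm b a, max_eq_right (H.1 z ha)] at h2
  exact h1.antisymm h2

lemma Good.trans (h : Good d N δ) {a b c : P} (H : Twin d a b) (H' : Twin d b c) : Twin d a c := by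
  by_cases h1 : a = b
  · exact h1 ▸ H'
  by_cases h2 : c = b
  · exact h2 ▸ H
  by_cases h3 : c = a
  · exact h3 ▸ h.refl c
  have h4 := h.eq H h3 h2
  have h5 := h.eq H' h1 (Ne.symm h3)
  refine ⟨fun z hz => ?_, h4 ▸ H'.2⟩
  rw [h.comm a c, ← h5, h.comm b a]
  exact H.1 z hz

lemma Good.eq2 (h : Good d N δ) {a b a' b' : P} (H : Twin d a a') (H' : Twin d b b') (h1 : a ≠ b)
    (h2 : a' ≠ b') : d a b = d a' b' := by
  by_cases h3 : b = a'
  · subst h3
    by_cases h4 : a = b'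
    · rw [h4, h.comm]
    · rw [← h.eq H (Ne.symm h4) h2.symm, h.comm a b, h.comm a b']
      exact h.eq H' h1 h4
  · rw [h.eq H h1.symm h3, h.comm a' b, h.comm a' b']
    exact h.eq H' (Ne.symm h3) h2

lemma Good.near (h : Good d N δ) {a b : P} (ha : a ∈ N) (H : Twin d a b) :
    ∃ q ≠ b, d b q = δ a ∧ ∀ z ≠ b, d b q ≤ d b z := by
  obtain ⟨q, h1, h2⟩ := h.att a ha
  by_cases h3 : a = b
  · subst h3
    exact ⟨q, h1, h2.antisymm (h.low a ha q h1), fun z hz => h2.trans (h.low a ha z hz)⟩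
  · refine ⟨a, h3, ?_, h.comm a b ▸ H.2⟩
    rw [h.comm]
    exact ((H.1 q h1).trans h2).antisymm (h.low a ha b (Ne.symm h3))

lemma swap {e : Q → Q → ℝ} {M : Set Q} {ε : Q → ℝ} (h : Good d N δ) (k : Good e M ε) (Φ : P ≃ Q)
    (hΦ : ∀ a b, e (Φ a) (Φ b) = d a b) : ∃ Ψ : P → Q, Ψ.Surjective ∧
      (∀ a b, e (Ψ a) (Ψ b) = d a b) ∧ ∀ a, ε (Ψ a) = δ a := by
  have k' : Good e (Φ '' N) (δ ∘ Φ.symm) := by
    have tw (a b : P) : Twin e (Φ a) (Φ b) ↔ Twin d a b := by
      simp [Twin, Φ.surjective.forall, hΦ]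
    refine ⟨k.self, k.nn, k.comm, k.ultra, ?_, ?_, ?_, ?_, ?_⟩
    · rintro _ ⟨a, ha, rfl⟩ _ ⟨b, hb, rfl⟩ H
      rw [h.uniq a ha b hb ((tw a b).1 H)]
    · simpa [Φ.surjective.forall, Φ.surjective.exists, hΦ, tw] using h.ex
    · simpa [Φ.surjective.forall, hΦ] using h.low
    · simpa [Φ.surjective.forall, Φ.surjective.exists, hΦ] using h.att
    · simpa [Φ.surjective.forall] using h.zero
  generalize Φ '' N = M' at k'
  have h1 (a) (ha : a ∈ M') : ∃ b ∈ M, Twin e a b :=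
    k.ex a ((k'.near ha (k.refl a)).imp fun _ h => ⟨h.1, h.2.2⟩)
  have h2 (a) (ha : a ∈ M) : ∃ b ∈ M', Twin e a b :=
    k'.ex a ((k.near ha (k.refl a)).imp fun _ h => ⟨h.1, h.2.2⟩)
  choose! f f1 f2 using h1
  choose! g g1 g2 using h2
  have gf (a) (ha : a ∈ M') : g (f a) = a :=
    k'.uniq _ (g1 _ (f1 a ha)) _ ha (k.symm (k.trans (f2 a ha) (g2 _ (f1 a ha))))
  have fg (a) (ha : a ∈ M) : f (g a) = a :=
    k.uniq _ (f1 _ (g1 a ha)) _ ha (k.symm (k.trans (g2 a ha) (f2 _ (g1 a ha))))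
  have fe (a) (ha : a ∈ M') (ha' : a ∈ M) : f a = a := (k.uniq _ ha' _ (f1 a ha) (f2 a ha)).symm
  have ge (a) (ha : a ∈ M') (ha' : a ∈ M) : g a = a := (k'.uniq _ ha _ (g1 a ha') (g2 a ha')).symm
  classical
  let σ : Q → Q := fun a => if a ∈ M' then f a else if a ∈ M then g a else a
  have s1 : σ.Involutive := fun a => by grind
  have s2 (a) : Twin e a (σ a) := by
    have := k.refl a
    grind
  have s3 (a) : ε (σ a) = δ (Φ.symm a) := by
    by_cases ha : a ∈ M'
    · obtain ⟨q, h3, h4, h5⟩ := k'.near ha (f2 a ha)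
      obtain ⟨q', h6, h7, h8⟩ := k.near (f1 a ha) (k.refl _)
      simp only [σ, if_pos ha]
      exact h7.symm.trans (((h8 q h3).antisymm (h5 q' h6)).trans h4)
    · have : σ a ∉ M := by grind
      exact (k.zero _ this).trans (k'.zero _ ha).symm
  refine ⟨σ ∘ Φ, s1.surjective.comp Φ.surjective, fun a b => ?_, fun a => by simp [s3]⟩
  by_cases hab : a = b
  · rw [hab, k.self, h.self]
  · exact (k.eq2 (s2 _) (s2 _) (Φ.injective.ne hab)
      ((s1.injective.comp Φ.injective).ne hab)).symm.trans (hΦ a b)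

end

section
variable {X : Type*} [MetricSpace X]

lemma ne' (A : Balls X) : A.1.Nonempty := by
  obtain ⟨_, c, r, h, rfl⟩ := A
  exact nonempty_closedBall.2 h.le

lemma bd (A : Balls X) : Bornology.IsBounded A.1 := by
  obtain ⟨_, c, r, h, rfl⟩ := A
  exact isBounded_closedBall

lemma fin (A B : Balls X) : hausdorffEDist A.1 B.1 ≠ ⊤ :=
  hausdorffEDist_ne_top_of_nonempty_of_bounded (ne' A) (ne' B) (bd A) (bd B)

lemma H (A B : Balls X) {t : ℝ} (h : ∀ x ∈ A.1, ∀ y ∈ B.1, dist x y ≤ t) :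
    hausdorffDist A.1 B.1 ≤ t := by
  obtain ⟨a, ha⟩ := ne' A
  obtain ⟨b, hb⟩ := ne' B
  exact hausdorffDist_le_of_mem_dist (dist_nonneg.trans (h a ha b hb))
    (fun x hx => ⟨b, hb, h x hx b hb⟩) fun y hy => ⟨a, ha, dist_comm a y ▸ h a ha y hy⟩

lemma approx (A B : Balls X) {a b : X} (ha : a ∈ A.1) (hb : b ∈ B.1) :
    |dist a b - hausdorffDist A.1 B.1| ≤ diam A.1 + diam B.1 := by
  refine abs_sub_le_iff.2 ⟨?_, sub_le_iff_le_add.2 (H A B fun x hx y hy => ?_)⟩
  · have := dist_le_infDist_add_diam (x := a) (bd B) hb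
    have := infDist_le_hausdorffDist_of_mem ha (fin A B)
    have := diam_nonneg (s := A.1)
    linarith
  · have := dist_triangle4 x a b y
    have := dist_le_diam_of_mem (bd A) hx ha
    have := dist_le_diam_of_mem (bd B) hb hy
    linarith

variable [IsUltrametricDist X]

lemma G {A B : Balls X} (h : A ≠ B) {x y : X} (hx : x ∈ A.1 ∪ B.1) (hy : y ∈ A.1 ∪ B.1) :
    dist x y ≤ hausdorffDist A.1 B.1 := by
  wlog h1 : ¬ A.1 ⊆ B.1 generalizing A B
  · rw [hausdorffDist_comm]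
    rw [union_comm] at hx hy
    exact this h.symm hx hy fun h2 => h (Subtype.ext ((not_not.1 h1).antisymm h2))
  obtain ⟨a, h2, h3⟩ := not_subset.1 h1
  have hf := fin A B
  obtain ⟨_, c, r, hr, rfl⟩ := B
  have h4 (z : X) (h5 : z ∈ A.1) (h6 : z ∉ closedBall c r) :
      dist z c ≤ hausdorffDist A.1 (closedBall c r) := by
    refine le_trans ((le_infDist (nonempty_closedBall.2 hr.le)).2 fun w hw => ?_)
      (infDist_le_hausdorffDist_of_mem h5 hf)
    exact (le_max_iff.1 (dist_triangle_max z w c)).resolve_right fun h => h6 (h.trans hw)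
  have h5 (z : X) (hz : z ∈ A.1 ∪ closedBall c r) :
      dist z c ≤ hausdorffDist A.1 (closedBall c r) := by
    by_cases h6 : z ∈ closedBall c r
    · exact (h6.trans (not_le.1 h3).le).trans (h4 a h2 h3)
    · exact h4 z (hz.resolve_right h6) h6
  exact (dist_triangle_max x c y).trans (max_le (h5 x hx) (dist_comm y c ▸ h5 y hy))

lemma good : Good (fun A B : Balls X => hausdorffDist A.1 B.1) {A | A.1.Nontrivial}
    fun A => diam A.1 := by
  have low (A z : Balls X) (h : z ≠ A) : diam A.1 ≤ hausdorffDist A.1 z.1 :=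
    diam_le_of_forall_dist_le hausdorffDist_nonneg fun x hx y hy => G h.symm (Or.inl hx) (Or.inl hy)
  have att (A : Balls X) (h : A.1.Nontrivial) : ∃ q ≠ A, hausdorffDist A.1 q.1 ≤ diam A.1 := by
    obtain ⟨x, hx, y, hy, h⟩ := h
    have h1 := dist_pos.2 h
    refine ⟨⟨_, x, _, half_pos h1, rfl⟩, fun h2 => ?_, H _ _ fun a ha b hb => ?_⟩
    · rw [← h2] at hy
      exact (half_lt_self h1).not_ge (mem_closedBall'.1 hy)
    · exact (dist_triangle_max a x b).trans (max_le (dist_le_diam_of_mem (bd A) ha hx)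
        (((mem_closedBall'.1 hb).trans (half_le_self h1.le)).trans
          (dist_le_diam_of_mem (bd A) hx hy)))
  have sub (A B : Balls X) (h : A ≠ B) (h1 : hausdorffDist A.1 B.1 ≤ diam A.1) : B.1 ⊆ A.1 := by
    have h2 := @G _ _ _ A B h
    obtain ⟨_, c, r, hr, rfl⟩ := A
    refine fun b hb => ((h2 (Or.inr hb) (Or.inl (mem_closedBall_self hr.le))).trans h1).trans
      (diam_le_of_forall_dist_le hr.le fun x hx y hy => ?_)
    exact (dist_triangle_max x c y).trans (max_le hx (mem_closedBall'.1 hy))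
  refine ⟨fun _ => hausdorffDist_self_zero, fun _ _ => hausdorffDist_nonneg,
    fun _ _ => hausdorffDist_comm, fun A B C => ?_, fun A hA B hB h => by_contra fun h1 => ?_, ?_,
    fun A _ => low A, att, fun A h => diam_subsingleton (not_nontrivial_iff.1 h)⟩
  · by_cases h1 : A = B
    · exact h1 ▸ le_max_right _ _
    by_cases h2 : B = C
    · exact h2 ▸ le_max_left _ _
    obtain ⟨y, hy⟩ := ne' B
    exact H _ _ fun x hx z hz => (dist_triangle_max x y z).trans
      (max_le_max (G h1 (Or.inl hx) (Or.inr hy)) (G h2 (Or.inl hy) (Or.inr hz)))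
  · obtain ⟨q, h2, h3⟩ := att A hA
    obtain ⟨q', h4, h5⟩ := att B hB
    exact h1 (Subtype.ext ((sub B A (Ne.symm h1) (hausdorffDist_comm.trans_le
      ((h.2 q' h4).trans h5))).antisymm (sub A B h1 ((h.1 q h2).trans h3))))
  · rintro p ⟨q, h1, h2⟩
    by_cases h3 : p.1.Nontrivial
    · exact ⟨p, h3, fun _ _ => hausdorffDist_self_zero.trans_le hausdorffDist_nonneg,
        fun _ _ => hausdorffDist_self_zero.trans_le hausdorffDist_nonneg⟩
    obtain ⟨x, hx⟩ := ne' p
    have h4 := (not_nontrivial_iff.1 h3).eq_singleton_of_mem hx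
    obtain ⟨y, hy, h5⟩ : ∃ y ∈ q.1, y ≠ x := by
      by_contra! h5
      exact h1 (Subtype.ext (h4 ▸ (eq_singleton_iff_nonempty_unique_mem.2 ⟨ne' q, h5⟩)))
    have h6 := G h1.symm (Or.inr hy) (Or.inl hx)
    have h7 := (dist_pos.2 h5).trans_le h6
    let A : Balls X := ⟨_, x, _, h7, rfl⟩
    refine ⟨A, ⟨y, h6, x, mem_closedBall_self h7.le, h5⟩, fun z hz => le_trans (H _ _ ?_) (h2 z hz),
      fun z hz => le_trans (H _ _ ?_) (low A z hz)⟩ <;> intro a ha b hb <;> rw [h4.le ha]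
    · exact mem_closedBall'.1 hb
    · exact dist_le_diam_of_mem (bd A) (mem_closedBall_self h7.le) hb

instance : IsUltrametricDist (Completion X) := ⟨fun x y z => Completion.induction_on₃ x y z
  (isClosed_le (by fun_prop) (by fun_prop)) fun a b c => by
    simpa only [Completion.dist_eq] using dist_triangle_max a b c⟩

lemma lift {W : Type*} [MetricSpace W] {f : W → X} (hf : Isometry f) (hd : DenseRange f) :
    ∃ T : Balls W ≃ Balls X, ∀ A B, hausdorffDist (T A).1 (T B).1 = hausdorffDist A.1 B.1 := by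
  have h1 (c : W) (r : ℝ) (hr : 0 < r) : closure (f '' closedBall c r) = closedBall (f c) r := by
    rw [← hf.preimage_closedBall, image_preimage_eq_inter_range]
    exact (closure_minimal inter_subset_left isClosed_closedBall).antisymm
      (Dense.open_subset_closure_inter hd (isOpen_closedBall _ hr.ne'))
  refine ⟨Equiv.ofBijective (fun A => ⟨closure (f '' A.1), ?_⟩) ⟨?_, ?_⟩, fun A B => ?_⟩
  · obtain ⟨_, c, r, hr, rfl⟩ := A
    exact ⟨_, r, hr, h1 c r hr⟩
  · rintro ⟨_, c, r, hr, rfl⟩ ⟨_, c', r', hr', rfl⟩ h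
    have := congrArg (fun A : Balls X => f ⁻¹' A.1) h
    simp only [h1 c r hr, h1 c' r' hr', hf.preimage_closedBall] at this
    exact Subtype.ext this
  · rintro ⟨_, w, r, hr, rfl⟩
    obtain ⟨c, hc⟩ := hd.exists_dist_lt w hr
    exact ⟨⟨_, c, r, hr, rfl⟩, Subtype.ext ((h1 c r hr).trans
      (closedBall_eq_of_mem (mem_closedBall'.2 hc.le)).symm)⟩
  · exact hausdorffDist_closure.trans (hausdorffDist_image hf)

end

theorem result (X Y : Type*) [MetricSpace X] [MetricSpace Y] [IsUltrametricDist X]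
    [IsUltrametricDist Y] [Nonempty X] [Nonempty Y] :
    Nonempty (Completion X ≃ᵢ Completion Y) ↔ ∃ Φ : Balls X ≃ Balls Y,
      ∀ A B, hausdorffDist (Φ A).1 (Φ B).1 = hausdorffDist A.1 B.1 := by
  constructor
  · rintro ⟨e⟩
    obtain ⟨T, hT⟩ := lift (e.isometry.comp Completion.coe_isometry)
      (e.surjective.denseRange.comp Completion.denseRange_coe e.continuous)
    obtain ⟨S, hS⟩ := lift (Completion.coe_isometry (α := Y)) Completion.denseRange_coe
    exact ⟨T.trans S.symm, fun A B => by simp [← hS, hT]⟩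
  rintro ⟨Φ, hΦ⟩
  obtain ⟨Ψ, h1, h2, h3⟩ := swap good good Φ hΦ
  let u : ℕ → ℝ := fun n => 1 / ((n : ℝ) + 1)
  have hu : Tendsto u atTop (𝓝 0) := tendsto_one_div_add_atTop_nhds_zero_nat
  let B : X → ℕ → Balls X := fun x n => ⟨_, x, u n, Nat.one_div_pos_of_nat, rfl⟩
  have hB (x n) : diam (B x n).1 ≤ 2 * u n := diam_closedBall Nat.one_div_pos_of_nat.le
  have hx (x n) : x ∈ (B x n).1 := mem_closedBall_self Nat.one_div_pos_of_nat.le
  choose g hg using fun x n => ne' (Ψ (B x n))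
  have h4 (A C : Balls X) {a c : X} (ha : a ∈ A.1) (hc : c ∈ C.1) {a' c' : Y} (ha' : a' ∈ (Ψ A).1)
      (hc' : c' ∈ (Ψ C).1) : |dist a' c' - dist a c| ≤ 2 * diam A.1 + 2 * diam C.1 := by
    have h5 := approx _ _ ha hc
    have h6 := approx _ _ ha' hc'
    rw [h2, h3, h3] at h6
    rw [abs_le] at *
    constructor <;> linarith [h5.1, h5.2, h6.1, h6.2]
  have h5 (x : X) : ∃ w, Tendsto (fun n => (g x n : Completion Y)) atTop (𝓝 w) := by
    refine cauchySeq_tendsto_of_complete (cauchySeq_of_le_tendsto_0' (fun n => 8 * u n)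
      (fun n m h => ?_) (by simpa using hu.const_mul 8))
    have h5 := h4 _ _ (hx x n) (hx x m) (hg x n) (hg x m)
    have : u m ≤ u n := Nat.one_div_le_one_div h
    rw [Completion.dist_eq]
    rw [dist_self, sub_zero] at h5
    linarith [le_abs_self (dist (g x n) (g x m)), hB x n, hB x m]
  choose f hf using h5
  have h6 : Isometry f := Isometry.of_dist_eq fun x y => by
    refine tendsto_nhds_unique ((hf x).dist (hf y)) (tendsto_iff_dist_tendsto_zero.2
      (squeeze_zero (fun _ => dist_nonneg) (fun n => ?_) (by simpa using hu.const_mul 8)))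
    rw [Completion.dist_eq, Real.dist_eq]
    linarith [h4 _ _ (hx x n) (hx y n) (hg x n) (hg y n), hB x n, hB y n]
  have h7 : range ((↑) : Y → Completion Y) ⊆ closure (range f) := by
    rintro _ ⟨y, rfl⟩
    refine Metric.mem_closure_range_iff.2 fun ε hε => ?_
    obtain ⟨A, hA⟩ := h1 ⟨_, y, ε / 8, by positivity, rfl⟩
    obtain ⟨a, ha⟩ := ne' A
    have h8 : diam A.1 ≤ 2 * (ε / 8) := by
      rw [← h3, hA]
      exact diam_closedBall (by positivity)
    have h9 : y ∈ (Ψ A).1 := hA ▸ mem_closedBall_self (by positivity)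
    refine ⟨a, lt_of_le_of_lt (le_of_tendsto_of_tendsto' (tendsto_const_nhds.dist (hf a))
      ((hu.const_mul 4).const_add (ε / 2)) fun n => ?_) (by linarith)⟩
    have h5 := h4 _ _ ha (hx a n) h9 (hg a n)
    rw [dist_self, sub_zero] at h5
    simp only [Completion.dist_eq]
    linarith [le_abs_self (dist y (g a n)), hB a n]
  have h8 := h6.completion_extension
  refine ⟨⟨Equiv.ofBijective _ ⟨h8.injective, fun w => ?_⟩, h8⟩⟩
  refine closure_minimal (h7.trans (closure_minimal ?_ h8.isClosedEmbedding.isClosed_range))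
    h8.isClosedEmbedding.isClosed_range (Completion.denseRange_coe w)
  rintro _ ⟨x, rfl⟩
  exact ⟨x, Completion.extension_coe h6.uniformContinuous x⟩

end Pool.Agent.Results.MP_856f66_gt.Main
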